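import Pool.Agent.K1H49.PL.Gen

set_option autoImplicit false

/-!
# Project PL: monochromatic copies of the binary tree
-/

namespace Pool.Agent.K1H4.PL

open Pool.Agent.K1H49.PL

section

variable {C Λ : Type} [LinearOrder Λ]

/-- extension -/
def le' (p q : TI Λ) : Prop := p.1.1 ≤ q.1.1 ∧ ∀ c, c < p.1.1 → q.1.2 c = p.1.2 c

theorem le'_refl (p : TI Λ) : le' p p := ⟨le_refl _, fun _ _ => rfl⟩

theorem le'_trans {p q r : TI Λ} (h : le' p q) (h' : le' q r) : le' p r :=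
  ⟨h.1.trans h'.1, fun c hc => (h'.2 c (hc.trans_le h.1)).trans (h.2 c hc)⟩

theorem le'_of_tlt {d : Bool} {p q : TI Λ} (h : tlt Λ d p q) : le' p q := ⟨h.1.le, h.2.1⟩

theorem tlt_of {d : Bool} {p q r : TI Λ} (h : tlt Λ d p q) (h' : le' q r) : tlt Λ d p r :=
  ⟨h.1.trans_le h'.1, fun c hc => (h'.2 c (hc.trans h.1)).trans (h.2.1 c hc),
    (h'.2 _ h.1).trans h.2.2⟩

theorem child [NoMaxOrder Λ] (p : TI Λ) (d : Bool) : ∃ q, tlt Λ d p q := by
  obtain ⟨b, hb⟩ := exists_gt p.1.1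
  refine ⟨⟨(b, fun c => if c < p.1.1 then p.1.2 c else if c = p.1.1 then d else false), ?_⟩, ?_⟩
  · intro c hc
    have h1 : p.1.1 < c := hb.trans_le hc
    simp [not_lt.2 h1.le, h1.ne']
  · refine ⟨hb, fun c hc => ?_, ?_⟩
    · show (if c < p.1.1 then p.1.2 c else if c = p.1.1 then d else false) = p.1.2 c
      rw [if_pos hc]
    · show (if p.1.1 < p.1.1 then p.1.2 p.1.1 else if p.1.1 = p.1.1 then d else false) = d
      rw [if_neg (lt_irrefl _), if_pos rfl]

/-- partial functions which kill colours -/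
def Z (f : TI Λ → C) : Set (Set (C × TI Λ)) :=
  {W | (∀ x ∈ W, ∀ y ∈ W, x.1 = y.1 → x = y) ∧ (∀ x ∈ W, ∀ y ∈ W, le' x.2 y.2 ∨ le' y.2 x.2) ∧
    ∀ x ∈ W, ∀ r, le' x.2 r → f r ≠ x.1}

theorem upper [Nonempty Λ] (hcof : ∀ g : C → Λ, ∃ b, ∀ c, g c < b) {f : TI Λ → C}
    {W : Set (C × TI Λ)} (hW : W ∈ Z f) : ∃ p : TI Λ, ∀ x ∈ W, le' x.2 p := by
  classical
  obtain ⟨h1, h2, _⟩ := hW
  obtain ⟨l0⟩ := ‹Nonempty Λ›
  obtain ⟨b, hb⟩ := hcof fun c => if h : ∃ p, (c, p) ∈ W then h.choose.1.1 else l0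
  have hb' : ∀ x ∈ W, x.2.1.1 < b := by
    intro x hx
    have h := hb x.1
    have hex : ∃ p, (x.1, p) ∈ W := ⟨x.2, hx⟩
    rw [dif_pos hex] at h
    have h3 := h1 _ hex.choose_spec _ hx rfl
    have h4 : hex.choose = x.2 := congrArg Prod.snd h3
    rwa [h4] at h
  let β : Λ → Bool := fun l => if h : ∃ x ∈ W, l < x.2.1.1 then h.choose.2.1.2 l else false
  refine ⟨⟨(b, fun l => if l < b then β l else false), ?_⟩, ?_⟩
  · intro c hc
    show (if c < b then β c else false) = false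
    rw [if_neg (not_lt.2 hc)]
  · intro x hx
    refine ⟨(hb' x hx).le, fun l hl => ?_⟩
    show (if l < b then β l else false) = x.2.1.2 l
    rw [if_pos (hl.trans (hb' x hx))]
    have hex : ∃ y ∈ W, l < y.2.1.1 := ⟨x, hx, hl⟩
    show (if h : ∃ x ∈ W, l < x.2.1.1 then h.choose.2.1.2 l else false) = x.2.1.2 l
    rw [dif_pos hex]
    obtain ⟨h3, h4⟩ := hex.choose_spec
    rcases h2 _ h3 _ hx with h5 | h5
    · exact (h5.2 l h4).symm
    · exact h5.2 l hl

theorem dense [Nonempty Λ] (hcof : ∀ g : C → Λ, ∃ b, ∀ c, g c < b) (f : TI Λ → C) :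
    ∃ (p : TI Λ) (c : C), ∀ q, le' p q → ∃ r, le' q r ∧ f r = c := by
  by_contra hcon
  push Not at hcon
  obtain ⟨W, hW⟩ := zorn_subset (Z f) (by
    intro ch hch hchain
    refine ⟨⋃₀ ch, ⟨?_, ?_, ?_⟩, fun s hs => Set.subset_sUnion_of_mem hs⟩
    · rintro x ⟨s, hs, hx⟩ y ⟨t, ht, hy⟩ hxy
      rcases hchain.total hs ht with h | h
      · exact (hch ht).1 x (h hx) y hy hxy
      · exact (hch hs).1 x hx y (h hy) hxy
    · rintro x ⟨s, hs, hx⟩ y ⟨t, ht, hy⟩
      rcases hchain.total hs ht with h | h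
      · exact (hch ht).2.1 x (h hx) y hy
      · exact (hch hs).2.1 x hx y (h hy)
    · rintro x ⟨s, hs, hx⟩
      exact (hch hs).2.2 x hx)
  obtain ⟨hWZ, hmax⟩ := hW
  obtain ⟨p, hp⟩ := upper hcof hWZ
  have hdom : ∀ c, ∃ q, (c, q) ∈ W := by
    intro c
    by_contra hc
    push Not at hc
    obtain ⟨q, hq, hkill⟩ := hcon p c
    have h1 : insert (c, q) W ∈ Z f := by
      refine ⟨?_, ?_, ?_⟩
      · rintro x (rfl | hx) y (rfl | hy) hxy
        · rfl
        · exact absurd (show (c, y.2) ∈ W by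
            have : (c, y.2) = y := Prod.ext hxy rfl
            rw [this]; exact hy) (hc _)
        · exact absurd (show (c, x.2) ∈ W by
            have : (c, x.2) = x := Prod.ext hxy.symm rfl
            rw [this]; exact hx) (hc _)
        · exact hWZ.1 x hx y hy hxy
      · rintro x (rfl | hx) y (rfl | hy)
        · exact Or.inl (le'_refl _)
        · exact Or.inr (le'_trans (hp y hy) hq)
        · exact Or.inl (le'_trans (hp x hx) hq)
        · exact hWZ.2.1 x hx y hy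
      · rintro x (rfl | hx)
        · exact hkill
        · exact hWZ.2.2 x hx
    exact hc q (hmax h1 (Set.subset_insert _ _) (Set.mem_insert _ _))
  obtain ⟨q, hq⟩ := hdom (f p)
  exact hWZ.2.2 _ hq p (hp _ hq) rfl

end

theorem t_COL : S_COL := by
  intro C Λ _ _ _ _ hcof f
  obtain ⟨p, c, hD⟩ := dense hcof f
  have hnext : ∀ (r : TI Λ) (d : Bool), le' p r → ∃ r', tlt Λ d r r' ∧ le' p r' ∧ f r' = c := by
    intro r d hr
    obtain ⟨q, hq⟩ := child r d
    obtain ⟨r', h1, h2⟩ := hD q (le'_trans hr (le'_of_tlt hq))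
    exact ⟨r', tlt_of hq h1, le'_trans (le'_trans hr (le'_of_tlt hq)) h1, h2⟩
  obtain ⟨r0, hr0, hr0c⟩ := hD p (le'_refl p)
  choose! nx hnx1 hnx2 hnx3 using hnext
  let G : List Bool → TI Λ := fun l => l.rec r0 (fun d _ r => nx r d)
  have hG0 : G [] = r0 := rfl
  have hG1 : ∀ d l, G (d :: l) = nx (G l) d := fun d l => rfl
  have hGp : ∀ l, le' p (G l) ∧ f (G l) = c := by
    intro l
    induction l with
    | nil => exact ⟨hr0, hr0c⟩
    | cons d l ih =>
      rw [hG1]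
      exact ⟨hnx2 _ d ih.1, hnx3 _ d ih.1⟩
  have hstep : ∀ d l, tlt Λ d (G l) (G (d :: l)) := fun d l => by
    rw [hG1]
    exact hnx1 _ d (hGp l).1
  have happ : ∀ s l, le' (G l) (G (s ++ l)) := by
    intro s l
    induction s with
    | nil => exact le'_refl _
    | cons d s ih => exact le'_trans ih (le'_of_tlt (hstep d (s ++ l)))
  refine ⟨fun π => G π.reverse, ?_, c, fun π => (hGp _).2⟩
  rintro π π' d ⟨t, rfl⟩
  have h1 : (π ++ [d] ++ t).reverse = t.reverse ++ (d :: π.reverse) := by simp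
  show tlt Λ d (G π.reverse) (G (π ++ [d] ++ t).reverse)
  rw [h1]
  exact tlt_of (hstep d π.reverse) (happ t.reverse (d :: π.reverse))

end Pool.Agent.K1H4.PL
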