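import Pool.Agent.K1H49.PL.Gen

set_option autoImplicit false

/-!
# Project PL, general case: extension by one position, preparations
-/

namespace Pool.Agent.K1H4.PLG

open Pool.Agent.K1H49.PL

/-- extension of a pattern -/
def ext {a : ℕ} (N : ℕ) (E : LN a → Nd) (η : LN N) : Nd :=
  E ⟨η.1.take a, by simp⟩ ++ η.1.drop a

theorem ext_pt {a N : ℕ} {E : LN a → Nd} (hE : Pt ndl a E) : Pt ndl N (ext N E) := by
  rintro ⟨η, hη⟩ ⟨η', hη'⟩ d ⟨r, hr⟩
  simp only at hr
  subst hr
  show (ext N E ⟨η, hη⟩ ++ [d]) <+: ext N E ⟨η ++ [d] ++ r, hη'⟩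
  rcases Nat.lt_or_ge η.length a with h | h
  · have e1 : (ext N E ⟨η, hη⟩) = E ⟨η, h.le⟩ := by
      unfold ext
      simp only [List.take_of_length_le h.le, List.drop_of_length_le h.le, List.append_nil]
    have e2 : (η ++ [d]) <+: (η ++ [d] ++ r).take a := by
      rw [List.take_append]
      have h3 : (η ++ [d]).take a = η ++ [d] := List.take_of_length_le (by simp; omega)
      rw [h3]
      exact List.prefix_append _ _
    have h4 := hE ⟨η, h.le⟩ ⟨(η ++ [d] ++ r).take a, by simp⟩ d e2
    rw [e1]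
    exact List.IsPrefix.trans h4 (List.prefix_append _ _)
  · have e1 : (η ++ [d] ++ r).take a = η.take a := by
      rw [List.append_assoc, List.take_append_of_le_length h]
    have e2 : (η ++ [d] ++ r).drop a = η.drop a ++ ([d] ++ r) := by
      rw [List.append_assoc, List.drop_append_of_le_length h]
    unfold ext
    simp only [e1, e2]
    rw [List.append_assoc]
    refine (List.prefix_append_right_inj _).2 ?_
    rw [← List.append_assoc]
    exact List.prefix_append _ _

theorem ext_incl {a N : ℕ} (E : LN a → Nd) (η : LN a) (h : η.1.length ≤ N) :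
    ext N E ⟨η.1, h⟩ = E η := by
  unfold ext
  have h1 : η.1.take a = η.1 := List.take_of_length_le η.2
  have h2 : η.1.drop a = [] := List.drop_of_length_le η.2
  simp only [h1, h2, List.append_nil]

section

variable {I : Type} {lt : Bool → I → I → Prop}

theorem irr (hB : BT lt) (π : I) (d : Bool) : ¬ lt d π π := fun h =>
  hB.wf.asymmetric π π ⟨d, h⟩ ⟨d, h⟩

/-- replacing the points in the cones -/
noncomputable def rep (lt : Bool → I → I → Prop) (π : I) {β : Type*} (c0 c1 : β) (ρ : I)
    (b : β) : β :=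
  open Classical in if lt false π ρ then c0 else if lt true π ρ then c1 else b

theorem below (hB : BT lt) {π a b c : I} {d0 d : Bool} (h : lt d a b) (h1 : lt d0 π b)
    (h2 : ¬ lt d0 π a) (hc : lt d0 π c) : lt d a c := by
  rcases hB.lin h h1 with h3 | ⟨e, h3⟩ | ⟨e, h3⟩
  · subst h3
    rw [hB.uniq h h1]
    exact hc
  · have h4 := hB.uniq (hB.trans h3 h1) h
    subst h4
    exact hB.trans h3 hc
  · have h4 := hB.uniq (hB.trans h3 h) h1
    subst h4
    exact absurd h3 h2

theorem rep_pt (hB : BT lt) {π : I} {C0 C1 : Nd → I} (hC0 : Cpy lt C0) (hC1 : Cpy lt C1)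
    (h0 : ∀ η, lt false π (C0 η)) (h1 : ∀ η, lt true π (C1 η)) {n : ℕ} {E0 : LN n → I}
    (hE0 : Pt lt n E0) {e0 e1 : LN n → Nd} (he0 : Pt ndl n e0) (he1 : Pt ndl n e1) :
    Pt lt n (fun η => rep lt π (C0 (e0 η)) (C1 (e1 η)) (E0 η) (E0 η)) := by
  classical
  intro η η' d hd
  have h := hE0 η η' d hd
  show lt d (rep lt π (C0 (e0 η)) (C1 (e1 η)) (E0 η) (E0 η))
    (rep lt π (C0 (e0 η')) (C1 (e1 η')) (E0 η') (E0 η'))
  unfold rep
  by_cases hA : lt false π (E0 η)
  · rw [if_pos hA, if_pos (hB.trans hA h)]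
    exact hC0 _ _ _ (he0 η η' d hd)
  · rw [if_neg hA]
    by_cases hBb : lt true π (E0 η)
    · have h2 : ¬ lt false π (E0 η') := fun h3 =>
        absurd (hB.uniq h3 (hB.trans hBb h)) (by decide)
      rw [if_pos hBb, if_neg h2, if_pos (hB.trans hBb h)]
      exact hC1 _ _ _ (he1 η η' d hd)
    · rw [if_neg hBb]
      by_cases hA' : lt false π (E0 η')
      · rw [if_pos hA']
        exact below hB h hA' hA (h0 _)
      · rw [if_neg hA']
        by_cases hB' : lt true π (E0 η')
        · rw [if_pos hB']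
          exact below hB h hB' hBb (h1 _)
        · rw [if_neg hB']
          exact h

end

end Pool.Agent.K1H4.PLG
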