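import Pool.Agent.K1H4.PL.Exn1

set_option autoImplicit false

/-!
# Project PL, general case: extension by one position
-/

namespace Pool.Agent.K1H4.PLG

open Pool.Agent.K1H49.PL

universe u

section

variable {M : Type u} {X ι K I : Type} {lt : Bool → I → I → Prop} {m : ℕ} {dg : K → ℕ}

theorem rep_app {lt : Bool → I → I → Prop} {π ρ : I} (a b c : ι → M) (i : ι) :
    rep lt π a b ρ c i = rep lt π (a i) (b i) ρ (c i) := by
  classical
  unfold rep
  split_ifs <;> rfl

theorem rep_map {lt : Bool → I → I → Prop} {π ρ : I} {β γ : Type*} (f : β → γ) (a b c : β) :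
    f (rep lt π a b ρ c) = rep lt π (f a) (f b) ρ (f c) := by
  classical
  unfold rep
  split_ifs <;> rfl

/-- the index map of the conditions of the first kind -/
noncomputable def j1 (lt : Bool → I → I → Prop) (π : I) (n : ℕ) (E0 : LN n → I) :
    X ⊕ (Option K × LN n × ι) → (X ⊕ (I × ι)) ⊕ (Option (Option K) × LN n × ι)
  | .inl a => .inl (.inl a)
  | .inr (none, η, i) => rep lt π (.inr (none, η, i)) (.inr (some none, η, i)) (E0 η)
      (.inl (.inr (E0 η, i)))
  | .inr (some k, η, i) => .inr (some (some k), η, i)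

/-- the index map of the conditions of the second kind -/
noncomputable def j2 (lt : Bool → I → I → Prop) (π : I) {N : ℕ} (hm : m + 1 ≤ N)
    (hd : ∀ k, dg k ≤ N) (E0 : LN (m + 1) → I) :
    X ⊕ ((Σ k, LN (dgo (m + 1) dg k)) × ι) → (X ⊕ (I × ι)) ⊕ (Option (Option K) × LN N × ι)
  | .inl a => .inl (.inl a)
  | .inr (⟨none, η⟩, i) => rep lt π (.inr (none, ⟨η.1, η.2.trans hm⟩, i))
      (.inr (some none, ⟨η.1, η.2.trans hm⟩, i)) (E0 η) (.inl (.inr (E0 η, i)))
  | .inr (⟨some k, η⟩, i) => .inr (some (some k), ⟨η.1, η.2.trans (hd k)⟩, i)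

/-- the index map of the conditions of the third kind -/
def j3 (π : I) : X ⊕ ((Σ k, LN (dgo (m + 1) dg k)) × ι) →
    (X ⊕ (I × ι)) ⊕ ((Σ k, LN (dgo m (dgo m dg) k)) × ι)
  | .inl a => .inl (.inl a)
  | .inr (⟨none, ⟨[], _⟩⟩, i) => .inl (.inr (π, i))
  | .inr (⟨none, ⟨false :: l, h⟩⟩, i) => .inr (⟨none, ⟨l, Nat.le_of_succ_le_succ h⟩⟩, i)
  | .inr (⟨none, ⟨true :: l, h⟩⟩, i) => .inr (⟨some none, ⟨l, Nat.le_of_succ_le_succ h⟩⟩, i)
  | .inr (⟨some k, η⟩, i) => .inr (⟨some (some k), η⟩, i)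

/-- families of patterns -/
def fam {n : ℕ} (e0 e1 : LN n → Nd) (E : K → LN n → Nd) : Option (Option K) → LN n → Nd
  | none => e0
  | some none => e1
  | some (some k) => E k

/-- dependent version -/
def famd (e0 e1 : LN m → Nd) (E : ∀ k, LN (dg k) → Nd) :
    ∀ k : Option (Option K), LN (dgo m (dgo m dg) k) → Nd
  | none => e0
  | some none => e1
  | some (some k) => E k

theorem fam_pt {n : ℕ} {e0 e1 : LN n → Nd} {E : K → LN n → Nd} (h0 : Pt ndl n e0)
    (h1 : Pt ndl n e1) (h : ∀ k, Pt ndl n (E k)) : ∀ k, Pt ndl n (fam e0 e1 E k) := by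
  rintro (_ | _ | k)
  · exact h0
  · exact h1
  · exact h k

theorem famd_pt {e0 e1 : LN m → Nd} {E : ∀ k, LN (dg k) → Nd} (h0 : Pt ndl m e0)
    (h1 : Pt ndl m e1) (h : ∀ k, Pt ndl (dg k) (E k)) :
    ∀ k, Pt ndl (dgo m (dgo m dg) k) (famd e0 e1 E k) := by
  rintro (_ | _ | k)
  · exact h0
  · exact h1
  · exact h k

/-- the family of trees over the parameters -/
def TT (w : I → ι → M) (s : K → Nd → ι → M) (C0 C1 : Nd → I) :
    Option (Option K) → Nd → ι → M
  | none => fun η => w (C0 η)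
  | some none => fun η => w (C1 η)
  | some (some k) => s k

/-- the candidate -/
noncomputable def WW (lt : Bool → I → I → Prop) (π : I) (w : I → ι → M)
    (v : Option (Option K) → Nd → ι → M) (g : I → Nd) (ρ : I) : ι → M :=
  rep lt π (v none (g ρ)) (v (some none) (g ρ)) ρ (w ρ)

end

theorem t_EXN : S_EXN.{u} := by
  classical
  intro M Y hSat _ X ι K I _ _ lt hB x t m dg hPH F hF π hπ hdom
  obtain ⟨w, s, hRz1, hRz2⟩ := hF.cons
  obtain ⟨C0, hC0, h0⟩ := hB.cp π false
  obtain ⟨C1, hC1, h1⟩ := hB.cp π true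
  set x' : X ⊕ (I × ι) → M := Sum.elim x (fun p => w p.1 p.2) with hx'
  obtain ⟨v, hv1, hv2⟩ := hPH (X ⊕ (I × ι)) x' (TT w s C0 C1)
  have hnocone : ∀ q ∈ F, ∀ d, ¬ lt d π q.1 := by
    intro q hq d h
    obtain ⟨θ, hθ⟩ := hF.dn q hq π d h
    exact hπ θ hθ
  -- conditions of the first kind
  have c1 : ∀ (g : I → Nd) (n : ℕ) (S : Set (X ⊕ (Option K × LN n × ι) → M)), Y.D S →
      HK x t n S → ∀ (E0 : LN n → I) (E : K → LN n → Nd), Pt lt n E0 → (∀ k, Pt ndl n (E k)) →
      Pt ndl n (fun η => g (E0 η)) →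
      Sum.elim x (fun p => p.1.elim (WW lt π w v g (E0 p.2.1) p.2.2)
        (fun k => v (some (some k)) (E k p.2.1) p.2.2)) ∈ S := by
    intro g n S hS hH E0 E hE0 hE hg
    have h2 : HK x' (TT w s C0 C1) n
        {z : (X ⊕ (I × ι)) ⊕ (Option (Option K) × LN n × ι) → M | z ∘ j1 lt π n E0 ∈ S} := by
      intro E'' hE''
      have h3 := hRz1 n S hS hH _ (fun k => E'' (some (some k)))
        (rep_pt hB hC0 hC1 h0 h1 hE0 (hE'' none) (hE'' (some none))) (fun k => hE'' _)
      have h4 : (Sum.elim x' fun p : Option (Option K) × LN n × ι =>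
          TT w s C0 C1 p.1 (E'' p.1 p.2.1) p.2.2) ∘ j1 lt π n E0 =
          Sum.elim x (fun p : Option K × LN n × ι =>
            p.1.elim (w (rep lt π (C0 (E'' none p.2.1)) (C1 (E'' (some none) p.2.1)) (E0 p.2.1)
              (E0 p.2.1)) p.2.2)
            (fun k => s k (E'' (some (some k)) p.2.1) p.2.2)) := by
        funext z
        rcases z with a | ⟨_ | k, η, i⟩
        · rfl
        · show (Sum.elim x' _) (rep lt π _ _ (E0 η) _) = w (rep lt π _ _ (E0 η) _) i
          rw [rep_map (Sum.elim x' _), rep_map w, rep_app]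
          rfl
        · rfl
      show _ ∘ _ ∈ S
      rw [h4]
      exact h3
    have h3 := hv1 n _ (Y.pull (j1 lt π n E0) hS) h2
      (fam (fun η => g (E0 η)) (fun η => g (E0 η)) E) (fam_pt hg hg hE)
    have h4 : (Sum.elim x' fun p : Option (Option K) × LN n × ι =>
          v p.1 (fam (fun η => g (E0 η)) (fun η => g (E0 η)) E p.1 p.2.1) p.2.2) ∘ j1 lt π n E0 =
        Sum.elim x (fun p : Option K × LN n × ι => p.1.elim (WW lt π w v g (E0 p.2.1) p.2.2)
        (fun k => v (some (some k)) (E k p.2.1) p.2.2)) := by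
      funext z
      rcases z with a | ⟨_ | k, η, i⟩
      · rfl
      · show (Sum.elim x' _) (rep lt π _ _ (E0 η) _) =
          (rep lt π (v none (g (E0 η))) (v (some none) (g (E0 η))) (E0 η) (w (E0 η)) : ι → M) i
        rw [rep_map (Sum.elim x' _), rep_app]
        rfl
      · rfl
    rw [← h4]
    exact h3
  obtain ⟨N, hNm, hNd⟩ : ∃ N, m + 1 ≤ N ∧ ∀ k, dg k ≤ N := by
    obtain ⟨B, hB'⟩ := (Set.finite_range dg).bddAbove
    exact ⟨max (m + 1) B, le_max_left _ _, fun k => (hB' ⟨k, rfl⟩).trans (le_max_right _ _)⟩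
  -- conditions of the second kind
  have c2 : ∀ (g : I → Nd), ∀ q ∈ F, ∀ (E0 : LN (m + 1) → I) (E : ∀ k, LN (dg k) → Nd),
      Pt lt (m + 1) E0 → (∀ k, Pt ndl _ (E k)) → Pt ndl (m + 1) (fun η => g (E0 η)) →
      E0 (rt (m + 1)) = q.1 → ∀ S ∈ q.2,
      tpx x (WW lt π w v g) (fun k => v (some (some k))) E0 E ∈ S := by
    intro g q hq E0 E hE0 hE hg hrt S hSq
    have hS : Y.D S := by
      obtain ⟨z, hz⟩ := hF.tp q hq
      rw [hz] at hSq
      exact hSq.1
    have h2 : HK x' (TT w s C0 C1) N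
        {z : (X ⊕ (I × ι)) ⊕ (Option (Option K) × LN N × ι) → M |
          z ∘ j2 lt π hNm hNd E0 ∈ S} := by
      intro E'' hE''
      have hr1 : ∀ (a : ℕ) (ha : a ≤ N) (e : LN N → Nd), Pt ndl N e →
          Pt ndl a (fun η => e ⟨η.1, η.2.trans ha⟩) := fun a ha e he η η' d hd => he _ _ d hd
      have h3 := hRz2 q hq (fun η => rep lt π (C0 (E'' none ⟨η.1, η.2.trans hNm⟩))
          (C1 (E'' (some none) ⟨η.1, η.2.trans hNm⟩)) (E0 η) (E0 η))
        (fun k η => E'' (some (some k)) ⟨η.1, η.2.trans (hNd k)⟩)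
        (rep_pt hB hC0 hC1 h0 h1 hE0 (hr1 _ hNm _ (hE'' none)) (hr1 _ hNm _ (hE'' (some none))))
        (fun k => hr1 _ (hNd k) _ (hE'' _)) (by
          show rep lt π _ _ (E0 (rt (m + 1))) (E0 (rt (m + 1))) = q.1
          rw [hrt]
          unfold rep
          rw [if_neg (hnocone q hq false), if_neg (hnocone q hq true)]) S hSq
      have h4 : (Sum.elim x' fun p : Option (Option K) × LN N × ι =>
          TT w s C0 C1 p.1 (E'' p.1 p.2.1) p.2.2) ∘ j2 lt π hNm hNd E0 =
          tpx x w s (fun η => rep lt π (C0 (E'' none ⟨η.1, η.2.trans hNm⟩))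
          (C1 (E'' (some none) ⟨η.1, η.2.trans hNm⟩)) (E0 η) (E0 η))
          (fun k η => E'' (some (some k)) ⟨η.1, η.2.trans (hNd k)⟩) := by
        funext z
        rcases z with a | ⟨⟨_ | k, η⟩, i⟩
        · rfl
        · show (Sum.elim x' _) (rep lt π _ _ (E0 η) _) = w (rep lt π _ _ (E0 η) _) i
          rw [rep_map (Sum.elim x' _), rep_map w, rep_app]
          rfl
        · rfl
      show _ ∘ _ ∈ S
      rw [h4]
      exact h3
    have h3 := hv1 N _ (Y.pull (j2 lt π hNm hNd E0) hS) h2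
      (fam (ext N (fun η : LN (m + 1) => g (E0 η))) (ext N (fun η : LN (m + 1) => g (E0 η)))
        (fun k => ext N (E k))) (fam_pt (ext_pt hg) (ext_pt hg) (fun k => ext_pt (hE k)))
    have h4 : (Sum.elim x' fun p : Option (Option K) × LN N × ι =>
          v p.1 (fam (ext N (fun η : LN (m + 1) => g (E0 η)))
            (ext N (fun η : LN (m + 1) => g (E0 η)))
            (fun k => ext N (E k)) p.1 p.2.1) p.2.2) ∘ j2 lt π hNm hNd E0 =
        tpx x (WW lt π w v g) (fun k => v (some (some k))) E0 E := by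
      funext z
      rcases z with a | ⟨⟨_ | k, η⟩, i⟩
      · rfl
      · show (Sum.elim x' _) (rep lt π _ _ (E0 η) _) =
          (rep lt π (v none (g (E0 η))) (v (some none) (g (E0 η))) (E0 η) (w (E0 η)) : ι → M) i
        rw [rep_map (Sum.elim x' _), rep_app]
        have e1 := ext_incl (N := N) (fun η : LN (m + 1) => g (E0 η)) η (η.2.trans hNm)
        show rep lt π (v none (ext N (fun η : LN (m + 1) => g (E0 η)) ⟨η.1, _⟩) i)
          (v (some none) (ext N (fun η : LN (m + 1) => g (E0 η)) ⟨η.1, _⟩) i) (E0 η)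
          (w (E0 η) i) = _
        rw [e1]
      · show v (some (some k)) (ext N (E k) ⟨η.1, _⟩) i = v (some (some k)) (E k η) i
        rw [ext_incl (N := N) (E k) η (η.2.trans (hNd k))]
    rw [← h4]
    exact h3
  -- the type of the new position
  set vθ : X ⊕ ((Σ k, LN (dgo (m + 1) dg k)) × ι) → M :=
    tpl x' v (famd (m := m) (dg := dg) (fun η => η.1) (fun η => η.1) (fun k η => η.1)) ∘ j3 π
    with hvθ
  have hid : ∀ a : ℕ, Pt ndl a (fun η : LN a => η.1) := fun a η η' d hd => hd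
  have c3 : ∀ (g : I → Nd) (E0 : LN (m + 1) → I) (E : ∀ k, LN (dg k) → Nd),
      Pt lt (m + 1) E0 → (∀ k, Pt ndl _ (E k)) → Pt ndl (m + 1) (fun η => g (E0 η)) →
      E0 (rt (m + 1)) = π → ∀ S, Y.D S → vθ ∈ S →
      tpx x (WW lt π w v g) (fun k => v (some (some k))) E0 E ∈ S := by
    intro g E0 E hE0 hE hg hrt S hS hvS
    have hcone : ∀ (d : Bool) (l : Nd) (hl : (d :: l).length ≤ m + 1),
        lt d π (E0 ⟨d :: l, hl⟩) := by
      intro d l hl
      rw [← hrt]
      exact hE0 (rt (m + 1)) ⟨d :: l, hl⟩ d ⟨l, rfl⟩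
    have hsub : ∀ d : Bool, Pt ndl m (fun η : LN m =>
        g (E0 ⟨d :: η.1, Nat.succ_le_succ η.2⟩)) := by
      intro d η η' d' hd'
      refine hg ⟨d :: η.1, Nat.succ_le_succ η.2⟩ ⟨d :: η'.1, Nat.succ_le_succ η'.2⟩ d' ?_
      obtain ⟨r, hr⟩ := hd'
      exact ⟨r, by show d :: η.1 ++ [d'] ++ r = d :: η'.1; rw [← hr]; rfl⟩
    have h2 := hv2 _ (Y.pull (j3 (m := m) (dg := dg) (X := X) (ι := ι) π) hS)
      (famd (m := m) (dg := dg) (fun η => η.1) (fun η => η.1) (fun k η => η.1))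
      (famd (m := m) (dg := dg) (fun η => g (E0 ⟨false :: η.1, Nat.succ_le_succ η.2⟩))
        (fun η => g (E0 ⟨true :: η.1, Nat.succ_le_succ η.2⟩)) E)
      (famd_pt (hid m) (hid m) (fun k => hid _)) (famd_pt (hsub false) (hsub true) hE) hvS
    have h3 : tpl x' v (famd (m := m) (dg := dg)
        (fun η => g (E0 ⟨false :: η.1, Nat.succ_le_succ η.2⟩))
        (fun η => g (E0 ⟨true :: η.1, Nat.succ_le_succ η.2⟩)) E) ∘ j3 π =
        tpx x (WW lt π w v g) (fun k => v (some (some k))) E0 E := by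
      funext z
      rcases z with a | ⟨⟨_ | k, η⟩, i⟩
      · rfl
      · obtain ⟨_ | ⟨d, l⟩, hl⟩ := η
        · show w π i = (rep lt π _ _ (E0 (rt (m + 1))) (w (E0 (rt (m + 1)))) : ι → M) i
          rw [hrt]
          unfold rep
          rw [if_neg (irr hB π false), if_neg (irr hB π true)]
        · cases d
          · show v none (g (E0 ⟨false :: l, _⟩)) i =
              (rep lt π (v none (g (E0 ⟨false :: l, hl⟩))) _ (E0 ⟨false :: l, hl⟩) _ : ι → M) i
            unfold rep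
            rw [if_pos (hcone false l hl)]
          · show v (some none) (g (E0 ⟨true :: l, _⟩)) i =
              (rep lt π _ (v (some none) (g (E0 ⟨true :: l, hl⟩))) (E0 ⟨true :: l, hl⟩) _ :
                ι → M) i
            unfold rep
            have h4 : ¬ lt false π (E0 ⟨true :: l, hl⟩) := fun h5 =>
              absurd (hB.uniq h5 (hcone true l hl)) (by decide)
            rw [if_neg h4, if_pos (hcone true l hl)]
      · rfl
    rw [← h3]
    exact h2
  -- saturation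
  obtain ⟨z, hz⟩ := hSat X ((I × ι) ⊕ (K × Nd × ι)) x
    {S | Y.D S ∧ ∃ P : Finset I, ∀ g : I → Nd, (∀ a ∈ P, ∀ b ∈ P, ∀ d, lt d a b →
      (g a ++ [d]) <+: g b) → Sum.elim x (Sum.elim (fun p => WW lt π w v g p.1 p.2)
        (fun p => v (some (some p.1)) p.2.1 p.2.2)) ∈ S} (fun S hS => hS.1) (by
      intro Δ hΔ
      have hex : ∀ S ∈ Δ, ∃ P : Finset I, ∀ g : I → Nd, (∀ a ∈ P, ∀ b ∈ P, ∀ d, lt d a b →
        (g a ++ [d]) <+: g b) → Sum.elim x (Sum.elim (fun p => WW lt π w v g p.1 p.2)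
          (fun p => v (some (some p.1)) p.2.1 p.2.2)) ∈ S := fun S hS => (hΔ S hS).2
      choose! P hP using hex
      obtain ⟨g, hg⟩ := hB.fe (Δ.biUnion P)
      exact ⟨_, fun S hS => hP S hS g fun a ha b hb d hd =>
        hg a (Finset.mem_biUnion.2 ⟨S, hS, ha⟩) b (Finset.mem_biUnion.2 ⟨S, hS, hb⟩) d hd⟩)
  have hfinLN : ∀ a : ℕ, Finite (LN a) := fun a =>
    (List.finite_length_le Bool a).to_subtype
  -- positions of a pattern
  have hpos : ∀ (a : ℕ) (E0 : LN a → I), Pt lt a E0 → ∃ P : Finset I, ∀ g : I → Nd,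
      (∀ b ∈ P, ∀ c ∈ P, ∀ d, lt d b c → (g b ++ [d]) <+: g c) →
        Pt ndl a (fun η => g (E0 η)) := by
    intro a E0 hE0
    have := hfinLN a
    refine ⟨(Set.finite_range E0).toFinset, fun g hg η η' d hd => ?_⟩
    exact hg _ (by simp) _ (by simp) d (hE0 η η' d hd)
  refine ⟨{S | Y.D S ∧ vθ ∈ S}, ?_, ?_, ?_, ?_⟩
  · rintro q (rfl | hq) q' (rfl | hq') h
    · rfl
    · exact absurd hq' (by
        have : q' = (π, q'.2) := Prod.ext h.symm rfl
        rw [this]; exact hπ _)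
    · exact absurd hq (by
        have : q = (π, q.2) := Prod.ext h rfl
        rw [this]; exact hπ _)
    · exact hF.fn q hq q' hq' h
  · rintro q (rfl | hq)
    · exact ⟨vθ, rfl⟩
    · exact hF.tp q hq
  · rintro q (rfl | hq) ρ d h
    · obtain ⟨θ, hθ⟩ := hdom ρ d h
      exact ⟨θ, Set.mem_insert_of_mem _ hθ⟩
    · obtain ⟨θ, hθ⟩ := hF.dn q hq ρ d h
      exact ⟨θ, Set.mem_insert_of_mem _ hθ⟩
  · refine ⟨fun ρ i => z (.inl (ρ, i)), fun k η i => z (.inr (k, η, i)), ?_, ?_⟩
    · intro n S hS hH E0 E hE0 hE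
      let j : X ⊕ (Option K × LN n × ι) → X ⊕ ((I × ι) ⊕ (K × Nd × ι)) := fun y =>
        match y with
        | .inl a => .inl a
        | .inr (none, η, i) => .inr (.inl (E0 η, i))
        | .inr (some k, η, i) => .inr (.inr (k, E k η, i))
      have h2 := hz {y | y ∘ j ∈ S} ⟨Y.pull j hS, by
        obtain ⟨P, hP⟩ := hpos n E0 hE0
        refine ⟨P, fun g hg => ?_⟩
        have h3 := c1 g n S hS hH E0 E hE0 hE (hP g hg)
        show _ ∘ j ∈ S
        convert h3 using 1
        funext y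
        rcases y with a | ⟨_ | k, η, i⟩ <;> rfl⟩
      have h3 : Sum.elim x z ∘ j ∈ S := h2
      convert h3 using 1
      funext y
      rcases y with a | ⟨_ | k, η, i⟩ <;> rfl
    · intro q hq E0 E hE0 hE hrt S hSq
      let j : X ⊕ ((Σ k, LN (dgo (m + 1) dg k)) × ι) → X ⊕ ((I × ι) ⊕ (K × Nd × ι)) := fun y =>
        match y with
        | .inl a => .inl a
        | .inr (⟨none, η⟩, i) => .inr (.inl (E0 η, i))
        | .inr (⟨some k, η⟩, i) => .inr (.inr (k, E k η, i))
      have hS : Y.D S := by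
        rcases hq with rfl | hq
        · exact hSq.1
        · obtain ⟨z', hz'⟩ := hF.tp q hq
          rw [hz'] at hSq
          exact hSq.1
      have h2 := hz {y | y ∘ j ∈ S} ⟨Y.pull j hS, by
        obtain ⟨P, hP⟩ := hpos (m + 1) E0 hE0
        refine ⟨P, fun g hg => ?_⟩
        have h3 : tpx x (WW lt π w v g) (fun k => v (some (some k))) E0 E ∈ S := by
          rcases hq with rfl | hq
          · exact c3 g E0 E hE0 hE (hP g hg) hrt S hSq.1 hSq.2
          · exact c2 g q hq E0 E hE0 hE (hP g hg) hrt S hSq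
        show _ ∘ j ∈ S
        convert h3 using 1
        funext y
        rcases y with a | ⟨⟨_ | k, η⟩, i⟩ <;> rfl⟩
      have h3 : Sum.elim x z ∘ j ∈ S := h2
      convert h3 using 1
      funext y
      rcases y with a | ⟨⟨_ | k, η⟩, i⟩ <;> rfl

end Pool.Agent.K1H4.PLG
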