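import Pool.Agent.K1H49.PL.Def
import Pool.Agent.K1H1.PL.PFS

set_option autoImplicit false

/-!
# Project PL: weak SOP2 of the theory
-/

namespace Pool.Agent.K1H4.PL

open FirstOrder Pool.Agent.K1H49.PL
open Pool.Agent.K1H1.PL (rl rl_realize g1)

universe u

variable {L : FirstOrder.Language.{0, 0}}

theorem projF : ∀ (k : ℕ) {α : Type} (φ : PF L (α ⊕ Fin k)),
    ∃ ψ : PF L α, ∀ (N : Type u) [L.Structure N] (v : α → N),
      ψ.Realize v ↔ ∃ w : Fin k → N, φ.Realize (Sum.elim v w) := by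
  intro k
  induction k with
  | zero =>
    intro α φ
    refine ⟨rl φ (Sum.elim id Fin.elim0), fun N _ v => ?_⟩
    rw [rl_realize]
    have : ∀ w : Fin 0 → N, Sum.elim v w = v ∘ Sum.elim id Fin.elim0 := by
      intro w
      funext x
      rcases x with a | i
      · rfl
      · exact i.elim0
    constructor
    · intro h
      exact ⟨Fin.elim0, by rw [this]; exact h⟩
    · rintro ⟨w, h⟩
      rw [this] at h
      exact h
  | succ k ih =>
    intro α φ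
    obtain ⟨ψ, hψ⟩ := ih (PF.ex (rl φ g1))
    refine ⟨ψ, fun N _ v => ?_⟩
    rw [hψ]
    simp only [PF.Realize, rl_realize]
    have key : ∀ (w : Fin k → N) (a : N),
        (fun o : Option (α ⊕ Fin k) => o.elim a (Sum.elim v w)) ∘ g1 =
          Sum.elim v (Fin.cons a w : Fin (k + 1) → N) := by
      intro w a
      funext x
      rcases x with b | i
      · rfl
      · refine Fin.cases ?_ (fun j => ?_) i <;> rfl
    constructor
    · rintro ⟨w, a, h⟩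
      rw [key] at h
      exact ⟨_, h⟩
    · rintro ⟨w, h⟩
      refine ⟨Fin.tail w, w 0, ?_⟩
      rw [key, Fin.cons_self_tail]
      exact h

theorem exs2 {A B' : Type} [Finite A] (χ : PF L (A ⊕ B')) :
    ∃ ξ : PF L B', ∀ (N : Type u) [L.Structure N] (v : B' → N),
      ξ.Realize v ↔ ∃ x : A → N, χ.Realize (Sum.elim x v) := by
  obtain ⟨k, ⟨e⟩⟩ := Finite.exists_equiv_fin A
  obtain ⟨ξ, hξ⟩ := projF.{u} k
    (rl χ (Sum.elim (fun a => Sum.inr (e a)) Sum.inl : A ⊕ B' → B' ⊕ Fin k))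
  refine ⟨ξ, fun N _ v => ?_⟩
  rw [hξ]
  simp only [rl_realize]
  have key : ∀ w : Fin k → N, Sum.elim v w ∘
      (Sum.elim (fun a => Sum.inr (e a)) Sum.inl : A ⊕ B' → B' ⊕ Fin k) =
        Sum.elim (w ∘ e) v := by
    intro w
    funext x
    rcases x with a | b <;> rfl
  constructor
  · rintro ⟨w, h⟩
    rw [key] at h
    exact ⟨_, h⟩
  · rintro ⟨x, h⟩
    refine ⟨x ∘ e.symm, ?_⟩
    rw [key]
    have : (x ∘ e.symm) ∘ e = x := by
      funext b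
      simp
    rw [this]
    exact h

theorem disj {M : Type u} [L.Structure M] (T : Set (HInd L)) {α ι : Type} (ξ : PF L α)
    {s : Set ι} (hs : s.Finite) (v : ι → α → M)
    (h : ∀ i ∈ s, ∃ ψ : PF L α, IsNeg.{u} T ξ ψ ∧ ψ.Realize (v i)) :
    ∃ ψ : PF L α, IsNeg.{u} T ξ ψ ∧ ∀ i ∈ s, ψ.Realize (v i) := by
  induction s, hs using Set.Finite.induction_on with
  | empty =>
    refine ⟨PF.bot, fun N _ _ => ?_, fun i hi => absurd hi (Set.notMem_empty i)⟩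
    rintro ⟨v, _, h2⟩
    exact h2
  | @insert a s _ _ ih =>
    obtain ⟨ψ, h1, h2⟩ := ih fun i hi => h i (Set.mem_insert_of_mem _ hi)
    obtain ⟨ψ', h3, h4⟩ := h a (Set.mem_insert _ _)
    refine ⟨PF.or ψ' ψ, fun N _ hN => ?_, fun i hi => ?_⟩
    · rintro ⟨w, h5, h6⟩
      rcases h6 with h6 | h6
      · exact h3 N hN ⟨w, h5, h6⟩
      · exact h1 N hN ⟨w, h5, h6⟩
    · rcases Set.mem_insert_iff.1 hi with rfl | hi
      · exact Or.inl h4
      · exact Or.inr (h2 i hi)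

/-- **Piece TR3.** -/
theorem t_TR3 : S_TR3.{u} := by
  intro L T M _ Y hY hM A B _ _ R hR hW
  obtain ⟨φ, hφ⟩ := (hY _).1 hR
  have hφ' : ∀ (x : A → M) (b : B → M), R x b ↔ φ.Realize (Sum.elim x b) := by
    intro x b
    have h1 := Set.ext_iff.1 hφ (Sum.elim x b)
    simpa only [Set.mem_ofPred_eq, Sum.elim_comp_inl, Sum.elim_comp_inr] using h1
  obtain ⟨ξ, hξ⟩ := exs2.{u} (B' := B ⊕ B)
    (PF.and (rl φ (Sum.map id Sum.inl : A ⊕ B → A ⊕ (B ⊕ B)))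
      (rl φ (Sum.map id Sum.inr : A ⊕ B → A ⊕ (B ⊕ B))))
  have hξ' : ∀ (N : Type u) [L.Structure N] (y₁ y₂ : B → N),
      ξ.Realize (Sum.elim y₁ y₂) ↔
        ∃ x : A → N, φ.Realize (Sum.elim x y₁) ∧ φ.Realize (Sum.elim x y₂) := by
    intro N _ y₁ y₂
    rw [hξ]
    refine exists_congr fun x => ?_
    have e1 : Sum.elim x (Sum.elim y₁ y₂) ∘ (Sum.map id Sum.inl : A ⊕ B → A ⊕ (B ⊕ B)) =
        Sum.elim x y₁ := by
      funext z
      rcases z with a | b <;> rfl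
    have e2 : Sum.elim x (Sum.elim y₁ y₂) ∘ (Sum.map id Sum.inr : A ⊕ B → A ⊕ (B ⊕ B)) =
        Sum.elim x y₂ := by
      funext z
      rcases z with a | b <;> rfl
    show (_ ∧ _) ↔ _
    rw [rl_realize, rl_realize, e1, e2]
  refine ⟨A, B, inferInstance, inferInstance, φ, fun n => ?_⟩
  obtain ⟨b, hb1, hb2⟩ := hW n
  have hfin : {p : Nd × Nd | (p.1.length ≤ n ∧ p.2.length ≤ n) ∧ Inc p.1 p.2}.Finite := by
    refine ((List.finite_length_le Bool n).prod (List.finite_length_le Bool n)).subset ?_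
    rintro ⟨μ, η⟩ h
    exact h.1
  obtain ⟨ψ, h1, h2⟩ := disj T ξ hfin (fun p => Sum.elim (b p.1) (b p.2)) (by
    rintro ⟨μ, η⟩ ⟨⟨h3, h4⟩, h5⟩
    refine hM.ec ξ _ ?_
    rw [hξ']
    rintro ⟨x, h6, h7⟩
    exact hb2 μ η h3 h4 h5 ⟨x, (hφ' _ _).2 h6, (hφ' _ _).2 h7⟩)
  refine ⟨ψ, b, ?_, ?_, ?_⟩
  · rintro N _ hN ⟨y₁, y₂, h3, h4⟩
    exact h1 N hN ⟨_, (hξ' N y₁ y₂).2 h4, h3⟩
  · intro σ hσ
    obtain ⟨w, hw⟩ := hb1 σ hσ
    exact ⟨w, fun τ hτ => (hφ' _ _).1 (hw τ hτ)⟩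
  · intro μ η h3 h4 h5 h6
    exact h2 (μ, η) ⟨⟨h3, h4⟩, h5, h6⟩

end Pool.Agent.K1H4.PL
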